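import Pool.Agent.LKJ.Step
import Pool.Agent.LKF.InvF

/-!
# LKJ/Main: the number `j` is irrelevant (Montesinos)

`jplus`, `jminus`, `jone`, `jany`: a 4-manifold which carries the family of thick tori `κ` with `n`, `j` carries it with `n`, `j'` for all `j'`.
-/

open scoped Manifold ContDiff Topology
open Set Filter
open Complex (I)
open Pool.Agent.RSG (E4 S4 ex c1 c2 ht fh pS4 Gc)
open Pool.Agent.RBM (ThickT OnT)
open Pool.Agent.RBH (Tube)
open Pool.Agent.LKF

namespace Pool.Agent.LKJ

universe u

variable {E : Type*} [NormedAddCommGroup E] [NormedSpace ℝ E] {H : Type*} [TopologicalSpace H]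
  {J : ModelWithCorners ℝ E H} {P : Type*} [TopologicalSpace P] [ChartedSpace H P]
  {ι : Type*} {κ : ι → ℝ × ℂ × ℝ → P} {n j : ι → ℤ} {X : Type u} [TopologicalSpace X] [ChartedSpace E4 X]

open Classical in
theorem inv0X (h : LinkT J κ) (i₀ : ι) (n j : ι → ℤ) (X : Type u) [TopologicalSpace X] [ChartedSpace E4 X] :
    Inv0 J (Oth κ i₀) (fun κ₁ => Nonempty (TwinF J (Function.update κ i₀ κ₁) n j X)) where
  germ := by
    intro κ₁ κ₂ η hη h₁ h₂ hO₁ hO₂ he hq
    obtain ⟨D⟩ := hq
    refine germF hη (link_update h i₀ h₁ hO₁) (link_update h i₀ h₂ hO₂) ?_ D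
    intro i l v t hv
    by_cases hi : i = i₀
    · subst hi
      rw [Function.update_self, Function.update_self]
      exact he l v t hv
    · rw [Function.update_of_ne hi, Function.update_of_ne hi]
  diff := by
    intro κ₁ F hF hO h₁ hO₁ hq
    obtain ⟨D⟩ := hq
    have L1 := link_update h i₀ h₁ hO₁
    have L3 := link_diff F hF L1
    have T2 : ThickT J (fun q => F (κ₁ q)) := by
      have := L3.thick i₀
      simp only [Function.update_self] at this
      exact this
    have L2 : LinkT J (Function.update κ i₀ fun q => F (κ₁ q)) := by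
      refine link_update h i₀ T2 ?_
      rintro _ ⟨l, v, t, hv, rfl⟩
      exact InvF_img hO (hO₁ ⟨l, v, t, hv, rfl⟩)
    obtain ⟨D'⟩ := diffF F hF D
    refine germF one_pos L3 L2 ?_ D'
    intro i l v t hv
    by_cases hi : i = i₀
    · subst hi
      simp only [Function.update_self]
    · simp only [Function.update_of_ne hi]
      exact (hO _ (InvF_not hi hv)).symm

open Classical in
theorem shift [T2Space P] (h : LinkT J κ) (i₀ : ι) (D : Nonempty (TwinF J κ n j X)) : Nonempty (TwinF J (sh κ i₀) n j X) := by
  have hd : ∀ l : ℝ, HasDerivAt (fun l : ℝ => l + 1 / 2) 1 l := fun l => (hasDerivAt_id l).add_const _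
  have h3 := repO (inv0X h i₀ n j X) (h.thick i₀) (tube_oth h i₀) (φ := fun l => l + 1 / 2)
    (contDiff_id.add contDiff_const) (fun l => by ring) (fun l => by rw [(hd l).deriv]; exact one_pos)
    (by rw [Function.update_eq_self]; exact D)
  exact h3

open Classical in
theorem jplus [T2Space P] (h : LinkT J κ) (i₀ : ι) (D : Nonempty (TwinF J κ n j X)) :
    Nonempty (TwinF J κ n (Function.update j i₀ (j i₀ + 1)) X) := by
  obtain ⟨D'⟩ := shift h i₀ D
  exact step h i₀ D'

open Classical in
theorem jminus [T2Space P] (h : LinkT J κ) (i₀ : ι) (D : Nonempty (TwinF J κ n j X)) :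
    Nonempty (TwinF J κ n (Function.update j i₀ (j i₀ - 1)) X) := by
  obtain ⟨D⟩ := D
  have D1 := mirhF h i₀ D
  have hT : Tube (fun q => κ i₀ (q.1 + 1 / 2, (starRingEnd ℂ) q.2.1, q.2.2)) ⊆ Oth κ i₀ := by
    rintro _ ⟨l, v, t, hv, rfl⟩
    exact tube_oth h i₀ ⟨l + 1 / 2, (starRingEnd ℂ) v, t, by rwa [RCLike.norm_conj], rfl⟩
  have L1 : LinkT J (Function.update κ i₀ fun q => κ i₀ (q.1 + 1 / 2, (starRingEnd ℂ) q.2.1, q.2.2)) :=
    link_update h i₀ (COR.Frm_thick (h.thick i₀)) hT
  obtain ⟨D2⟩ := jplus L1 i₀ D1
  have D3 := mirhF L1 i₀ D2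
  simp only [Function.update_self, Function.update_idem] at D3
  have e1 : (fun q : ℝ × ℂ × ℝ => κ i₀ (q.1 + 1 / 2 + 1 / 2, (starRingEnd ℂ) ((starRingEnd ℂ) q.2.1), q.2.2)) = κ i₀ := by
    funext q
    rw [Complex.conj_conj, show q.1 + 1 / 2 + 1 / 2 = q.1 + 1 by ring, (h.thick i₀).perl]
  have e2 : 1 - (1 - j i₀ + 1) = j i₀ - 1 := by ring
  rw [e1, e2, Function.update_eq_self] at D3
  exact D3

open Classical in
theorem jone [T2Space P] (h : LinkT J κ) (i₀ : ι) (k : ℤ) (D : Nonempty (TwinF J κ n j X)) :
    Nonempty (TwinF J κ n (Function.update j i₀ k) X) := by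
  have key : ∀ d : ℤ, Nonempty (TwinF J κ n (Function.update j i₀ (j i₀ + d)) X) := by
    intro d
    induction d using Int.induction_on with
    | zero => rw [add_zero, Function.update_eq_self]; exact D
    | succ d ih =>
      have h1 := jplus h i₀ ih
      rw [Function.update_self, Function.update_idem, add_assoc] at h1
      exact h1
    | pred d ih =>
      have h1 := jminus h i₀ ih
      rw [Function.update_self, Function.update_idem, add_sub_assoc] at h1
      exact h1
  have h1 := key (k - j i₀)
  rw [add_sub_cancel] at h1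
  exact h1

/-- The numbers `j` are irrelevant. -/
theorem jany [T2Space P] [Finite ι] (h : LinkT J κ) (j' : ι → ℤ) (D : Nonempty (TwinF J κ n j X)) :
    Nonempty (TwinF J κ n j' X) := by
  classical
  have := Fintype.ofFinite ι
  have key : ∀ T : Finset ι, Nonempty (TwinF J κ n (fun i => if i ∈ T then j' i else j i) X) := by
    intro T
    induction T using Finset.induction_on with
    | empty => simpa using D
    | insert i T hi ih =>
      have h1 := jone h i (j' i) ih
      have e : Function.update (fun i => if i ∈ T then j' i else j i) i (j' i) =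
          fun m => if m ∈ insert i T then j' m else j m := by
        funext m
        by_cases hm : m = i
        · subst hm
          rw [Function.update_self, if_pos (Finset.mem_insert_self _ _)]
        · rw [Function.update_of_ne hm]
          simp only [Finset.mem_insert, hm, false_or]
      rw [e] at h1
      exact h1
  have h1 := key Finset.univ
  simpa using h1

end Pool.Agent.LKJ
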