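import Pool.Agent.LKF.Defs
import Pool.Agent.CSG.FunBasic
import Pool.Agent.RSG.MirM
import Pool.Agent.RSG.Base

/-!
# LKJ/Psi: a diffeomorphism of the twin

`Ps z = (c1', c2', ht')` with `c2' = c1 z` and `(c1', ht')` = the point `(conj (c2 z), - ht z)` of `ℂ × ℝ`, rotated by the unit quaternion
`(a + b j) / |a + b j|`, `a = c1 z`, `b = bc (|c1 z|²)`, `b = 1` for small `|c1 z|` and `b = 0` for `|c1 z| ≥ 1/4`.
For `|c1 z| ≥ 1/4`: `c1' = (c1 / |c1|)² conj (c2)`, `ht' = - ht`.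
-/

open scoped Manifold ContDiff Topology
open Set Filter
open Complex (I)
open Pool.Agent.CSG (stp)
open Pool.Agent.RSG (E4 S4 ex c1 c2 ht fh pS4)

namespace Pool.Agent.LKJ

/-! ### rotations of `ℂ × ℝ` -/

/-- rotation by the quaternion `a + b j` (complex coordinate) -/
noncomputable def r1 (a : ℂ) (b : ℝ) (w : ℂ) (h : ℝ) : ℂ :=
  (a ^ 2 * w - (b : ℂ) ^ 2 * (starRingEnd ℂ) w - 2 * a * b * h) / ((‖a‖ ^ 2 + b ^ 2 : ℝ) : ℂ)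

/-- rotation by the quaternion `a + b j` (real coordinate) -/
noncomputable def r2 (a : ℂ) (b : ℝ) (w : ℂ) (h : ℝ) : ℝ :=
  ((‖a‖ ^ 2 - b ^ 2) * h + 2 * b * (a * w).re) / (‖a‖ ^ 2 + b ^ 2)

theorem nsq (a : ℂ) : ‖a‖ ^ 2 = a.re ^ 2 + a.im ^ 2 := by
  rw [← Complex.normSq_eq_norm_sq, Complex.normSq_apply]
  ring

theorem r1_re {a : ℂ} {b : ℝ} (w : ℂ) (h : ℝ) : (r1 a b w h).re =
    ((a.re ^ 2 - a.im ^ 2) * w.re - 2 * a.re * a.im * w.im - b ^ 2 * w.re - 2 * a.re * b * h) / (‖a‖ ^ 2 + b ^ 2) := by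
  unfold r1
  rw [Complex.div_ofReal_re]
  congr 1
  simp only [pow_two, Complex.sub_re, Complex.mul_re, Complex.mul_im, Complex.conj_re, Complex.conj_im,
    Complex.ofReal_re, Complex.ofReal_im, Complex.re_ofNat, Complex.im_ofNat]
  ring

theorem r1_im {a : ℂ} {b : ℝ} (w : ℂ) (h : ℝ) : (r1 a b w h).im =
    ((a.re ^ 2 - a.im ^ 2) * w.im + 2 * a.re * a.im * w.re + b ^ 2 * w.im - 2 * a.im * b * h) / (‖a‖ ^ 2 + b ^ 2) := by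
  unfold r1
  rw [Complex.div_ofReal_im]
  congr 1
  simp only [pow_two, Complex.sub_im, Complex.mul_re, Complex.mul_im, Complex.conj_re, Complex.conj_im,
    Complex.ofReal_re, Complex.ofReal_im, Complex.re_ofNat, Complex.im_ofNat]
  ring

theorem r2_eq {a : ℂ} {b : ℝ} (w : ℂ) (h : ℝ) : r2 a b w h =
    ((‖a‖ ^ 2 - b ^ 2) * h + 2 * b * (a.re * w.re - a.im * w.im)) / (‖a‖ ^ 2 + b ^ 2) := by
  unfold r2
  rw [Complex.mul_re]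

theorem r_norm {a : ℂ} {b : ℝ} (hn : 0 < ‖a‖ ^ 2 + b ^ 2) (w : ℂ) (h : ℝ) :
    ‖r1 a b w h‖ ^ 2 + r2 a b w h ^ 2 = ‖w‖ ^ 2 + h ^ 2 := by
  rw [nsq, nsq w, r1_re, r1_im, r2_eq]
  rw [nsq] at hn ⊢
  have h1 : a.re ^ 2 + a.im ^ 2 + b ^ 2 ≠ 0 := hn.ne'
  field_simp
  ring

theorem r1_inv {a : ℂ} {b : ℝ} (hn : 0 < ‖a‖ ^ 2 + b ^ 2) (w : ℂ) (h : ℝ) :
    r1 ((starRingEnd ℂ) a) (-b) (r1 a b w h) (r2 a b w h) = w := by
  have h1 : a.re ^ 2 + a.im ^ 2 + b ^ 2 ≠ 0 := by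
    rw [nsq] at hn
    exact hn.ne'
  apply Complex.ext
  · rw [r1_re, r1_re, r1_im, r2_eq, RCLike.norm_conj, nsq, Complex.conj_re, Complex.conj_im, neg_sq]
    field_simp
    ring
  · rw [r1_im, r1_re, r1_im, r2_eq, RCLike.norm_conj, nsq, Complex.conj_re, Complex.conj_im, neg_sq]
    field_simp
    ring

theorem r2_inv {a : ℂ} {b : ℝ} (hn : 0 < ‖a‖ ^ 2 + b ^ 2) (w : ℂ) (h : ℝ) :
    r2 ((starRingEnd ℂ) a) (-b) (r1 a b w h) (r2 a b w h) = h := by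
  have h1 : a.re ^ 2 + a.im ^ 2 + b ^ 2 ≠ 0 := by
    rw [nsq] at hn
    exact hn.ne'
  rw [r2_eq, r1_re, r1_im, r2_eq, RCLike.norm_conj, nsq, Complex.conj_re, Complex.conj_im, neg_sq]
  field_simp
  ring

theorem r1_inv' {a : ℂ} {b : ℝ} (hn : 0 < ‖a‖ ^ 2 + b ^ 2) (w : ℂ) (h : ℝ) :
    r1 a b (r1 ((starRingEnd ℂ) a) (-b) w h) (r2 ((starRingEnd ℂ) a) (-b) w h) = w := by
  have h1 := r1_inv (a := (starRingEnd ℂ) a) (b := -b) (by rw [RCLike.norm_conj, neg_sq]; exact hn) w h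
  rwa [Complex.conj_conj, neg_neg] at h1

theorem r2_inv' {a : ℂ} {b : ℝ} (hn : 0 < ‖a‖ ^ 2 + b ^ 2) (w : ℂ) (h : ℝ) :
    r2 a b (r1 ((starRingEnd ℂ) a) (-b) w h) (r2 ((starRingEnd ℂ) a) (-b) w h) = h := by
  have h1 := r2_inv (a := (starRingEnd ℂ) a) (b := -b) (by rw [RCLike.norm_conj, neg_sq]; exact hn) w h
  rwa [Complex.conj_conj, neg_neg] at h1

theorem r1_zero (a w : ℂ) (h : ℝ) : r1 a 0 w h = a ^ 2 * w / ((‖a‖ ^ 2 : ℝ) : ℂ) := by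
  unfold r1
  simp

theorem r2_zero {a : ℂ} (ha : a ≠ 0) (w : ℂ) (h : ℝ) : r2 a 0 w h = h := by
  have h1 : ‖a‖ ^ 2 ≠ 0 := pow_ne_zero 2 (norm_ne_zero_iff.2 ha)
  unfold r2
  simp
  field_simp

/-! ### the cutoff function -/

/-- `1` for `|a|² ≤ 1/64`, `0` for `|a|² ≥ 1/16` -/
noncomputable def bc (a : ℂ) : ℝ := 1 - stp (1 / 64) (1 / 16) (‖a‖ ^ 2)

theorem bc_conj (a : ℂ) : bc ((starRingEnd ℂ) a) = bc a := by
  unfold bc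
  rw [RCLike.norm_conj]

theorem bc_zero {a : ℂ} (h : 1 / 4 ≤ ‖a‖) : bc a = 0 := by
  unfold bc
  rw [CSG.stp_one (by norm_num) (by nlinarith), sub_self]

theorem bc_pos (a : ℂ) : 0 < ‖a‖ ^ 2 + bc a ^ 2 := by
  by_cases h : a = 0
  · subst h
    have h1 : bc 0 = 1 := by
      unfold bc
      rw [CSG.stp_zero (by norm_num) (by norm_num), sub_zero]
    rw [h1]
    norm_num
  · have h1 : 0 < ‖a‖ := norm_pos_iff.2 h
    positivity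

theorem bc_smooth : ContDiff ℝ ∞ bc := by
  unfold bc
  exact contDiff_const.sub ((CSG.stp_smooth _ _).comp (contDiff_norm_sq ℝ))

section smooth
variable {M : Type*} [TopologicalSpace M] {E : Type*} [NormedAddCommGroup E] [NormedSpace ℝ E] {H : Type*}
  [TopologicalSpace H] {J : ModelWithCorners ℝ E H} [ChartedSpace H M]

theorem r1_smooth {ε : ℝ} (hε : ε = 1 ∨ ε = -1) : ContDiff ℝ ∞ (fun q : ℂ × ℂ × ℝ => r1 q.1 (ε * bc q.1) q.2.1 q.2.2) := by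
  unfold r1
  have hre : ContDiff ℝ ∞ (fun x : ℝ => (x : ℂ)) := Complex.ofRealCLM.contDiff
  have hb : ContDiff ℝ ∞ (fun q : ℂ × ℂ × ℝ => ε * bc q.1) := contDiff_const.mul (bc_smooth.comp contDiff_fst)
  have hbc : ContDiff ℝ ∞ (fun q : ℂ × ℂ × ℝ => ((ε * bc q.1 : ℝ) : ℂ)) := hre.comp hb
  have hcj : ContDiff ℝ ∞ (fun q : ℂ × ℂ × ℝ => (starRingEnd ℂ) q.2.1) :=
    Complex.conjCLE.contDiff.comp contDiff_snd.fst
  have hh : ContDiff ℝ ∞ (fun q : ℂ × ℂ × ℝ => ((q.2.2 : ℝ) : ℂ)) := hre.comp contDiff_snd.snd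
  have hn : ContDiff ℝ ∞ (fun q : ℂ × ℂ × ℝ => ((‖q.1‖ ^ 2 + (ε * bc q.1) ^ 2 : ℝ) : ℂ)) :=
    hre.comp (((contDiff_norm_sq ℝ).comp contDiff_fst).add (hb.pow 2))
  simp only [div_eq_mul_inv]
  refine ContDiff.mul ?_ (hn.inv ?_)
  · exact (((contDiff_fst.pow 2).mul contDiff_snd.fst).sub ((hbc.pow 2).mul hcj)).sub
      (((contDiff_const.mul contDiff_fst).mul hbc).mul hh)
  · intro q
    have h1 := bc_pos q.1
    have h2 : (ε * bc q.1) ^ 2 = bc q.1 ^ 2 := by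
      rcases hε with rfl | rfl <;> ring
    rw [h2]
    exact_mod_cast h1.ne'

theorem r2_smooth {ε : ℝ} (hε : ε = 1 ∨ ε = -1) : ContDiff ℝ ∞ (fun q : ℂ × ℂ × ℝ => r2 q.1 (ε * bc q.1) q.2.1 q.2.2) := by
  unfold r2
  have hb : ContDiff ℝ ∞ (fun q : ℂ × ℂ × ℝ => ε * bc q.1) := contDiff_const.mul (bc_smooth.comp contDiff_fst)
  have hn : ContDiff ℝ ∞ (fun q : ℂ × ℂ × ℝ => ‖q.1‖ ^ 2) := (contDiff_norm_sq ℝ).comp contDiff_fst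
  have hre : ContDiff ℝ ∞ (fun q : ℂ × ℂ × ℝ => (q.1 * q.2.1).re) :=
    Complex.reCLM.contDiff.comp (contDiff_fst.mul contDiff_snd.fst)
  refine ContDiff.div ?_ (hn.add (hb.pow 2)) ?_
  · exact ((hn.sub (hb.pow 2)).mul contDiff_snd.snd).add ((contDiff_const.mul hb).mul hre)
  · intro q
    have h1 := bc_pos q.1
    have h2 : (ε * bc q.1) ^ 2 = bc q.1 ^ 2 := by
      rcases hε with rfl | rfl <;> ring
    rw [h2]
    exact h1.ne'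

end smooth

/-! ### the diffeomorphism -/

/-- the diffeomorphism -/
noncomputable def Ps (z : S4) : S4 :=
  pS4 (r1 (c1 z) (bc (c1 z)) ((starRingEnd ℂ) (c2 z)) (-ht z)) (c1 z)
    (r2 (c1 z) (bc (c1 z)) ((starRingEnd ℂ) (c2 z)) (-ht z))

/-- the inverse -/
noncomputable def Pi (z : S4) : S4 :=
  pS4 (c2 z) ((starRingEnd ℂ) (r1 ((starRingEnd ℂ) (c2 z)) (-bc (c2 z)) (c1 z) (ht z)))
    (-r2 ((starRingEnd ℂ) (c2 z)) (-bc (c2 z)) (c1 z) (ht z))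

theorem Ps_sum (z : S4) : ‖r1 (c1 z) (bc (c1 z)) ((starRingEnd ℂ) (c2 z)) (-ht z)‖ ^ 2 + ‖c1 z‖ ^ 2 +
    r2 (c1 z) (bc (c1 z)) ((starRingEnd ℂ) (c2 z)) (-ht z) ^ 2 = 1 := by
  have h1 := r_norm (bc_pos (c1 z)) ((starRingEnd ℂ) (c2 z)) (-ht z)
  rw [RCLike.norm_conj, neg_sq] at h1
  have h2 := RSG.S4_sq z
  linarith

theorem Pi_sum (z : S4) : ‖c2 z‖ ^ 2 + ‖(starRingEnd ℂ) (r1 ((starRingEnd ℂ) (c2 z)) (-bc (c2 z)) (c1 z) (ht z))‖ ^ 2 +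
    (-r2 ((starRingEnd ℂ) (c2 z)) (-bc (c2 z)) (c1 z) (ht z)) ^ 2 = 1 := by
  have h1 := r_norm (a := (starRingEnd ℂ) (c2 z)) (b := -bc (c2 z)) (by
    rw [RCLike.norm_conj, neg_sq]; exact bc_pos _) (c1 z) (ht z)
  rw [RCLike.norm_conj, neg_sq (r2 _ _ _ _)]
  have h2 := RSG.S4_sq z
  linarith

theorem Ps_c (z : S4) : c1 (Ps z) = r1 (c1 z) (bc (c1 z)) ((starRingEnd ℂ) (c2 z)) (-ht z) ∧ c2 (Ps z) = c1 z ∧
    ht (Ps z) = r2 (c1 z) (bc (c1 z)) ((starRingEnd ℂ) (c2 z)) (-ht z) := RSG.pS4_c (Ps_sum z)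

theorem Pi_c (z : S4) : c1 (Pi z) = c2 z ∧
    c2 (Pi z) = (starRingEnd ℂ) (r1 ((starRingEnd ℂ) (c2 z)) (-bc (c2 z)) (c1 z) (ht z)) ∧
    ht (Pi z) = -r2 ((starRingEnd ℂ) (c2 z)) (-bc (c2 z)) (c1 z) (ht z) := RSG.pS4_c (Pi_sum z)

theorem Pi_Ps (z : S4) : Pi (Ps z) = z := by
  obtain ⟨h1, h2, h3⟩ := Ps_c z
  obtain ⟨h4, h5, h6⟩ := Pi_c (Ps z)
  refine RSG.S4_ext ?_ ?_ ?_
  · rw [h4, h2]
  · rw [h5, h2, h1, h3, r1_inv (bc_pos _), Complex.conj_conj]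
  · rw [h6, h2, h1, h3, r2_inv (bc_pos _), neg_neg]

theorem Ps_Pi (z : S4) : Ps (Pi z) = z := by
  obtain ⟨h1, h2, h3⟩ := Pi_c z
  obtain ⟨h4, h5, h6⟩ := Ps_c (Pi z)
  refine RSG.S4_ext ?_ ?_ ?_
  · rw [h4, h1, h2, h3, Complex.conj_conj, neg_neg, r1_inv' (bc_pos _)]
  · rw [h5, h1]
  · rw [h6, h1, h2, h3, Complex.conj_conj, neg_neg, r2_inv' (bc_pos _)]

theorem Ps_smooth (z : S4) : ContMDiffAt (𝓡 4) (𝓡 4) ∞ Ps z := by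
  have hc : ContMDiff 𝓘(ℝ, ℂ) 𝓘(ℝ, ℂ) ∞ (fun w : ℂ => (starRingEnd ℂ) w) :=
    contMDiff_iff_contDiff.2 Complex.conjCLE.contDiff
  have hq : ContMDiffAt (𝓡 4) 𝓘(ℝ, ℂ × ℂ × ℝ) ∞ (fun z : S4 => (c1 z, (starRingEnd ℂ) (c2 z), -ht z)) z :=
    (RSG.c1_smooth z).prodMk_space ((hc.contMDiffAt.comp z (RSG.c2_smooth z)).prodMk_space
      ((RSG.ht_smooth z).neg))
  have e1 : ContMDiffAt (𝓡 4) 𝓘(ℝ, ℂ) ∞ (fun z : S4 => r1 (c1 z) (bc (c1 z)) ((starRingEnd ℂ) (c2 z)) (-ht z)) z := by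
    have h := (r1_smooth (Or.inl rfl)).contMDiff.contMDiffAt.comp z hq
    refine h.congr_of_eventuallyEq (Eventually.of_forall fun y => ?_)
    show _ = r1 (c1 y) (1 * bc (c1 y)) _ _
    rw [one_mul]
  have e2 : ContMDiffAt (𝓡 4) 𝓘(ℝ, ℝ) ∞ (fun z : S4 => r2 (c1 z) (bc (c1 z)) ((starRingEnd ℂ) (c2 z)) (-ht z)) z := by
    have h := (r2_smooth (Or.inl rfl)).contMDiff.contMDiffAt.comp z hq
    refine h.congr_of_eventuallyEq (Eventually.of_forall fun y => ?_)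
    show _ = r2 (c1 y) (1 * bc (c1 y)) _ _
    rw [one_mul]
  refine RSG.pS4_smooth e1 (RSG.c1_smooth z) e2 ?_
  rw [Ps_sum]
  exact one_pos

theorem Pi_smooth (z : S4) : ContMDiffAt (𝓡 4) (𝓡 4) ∞ Pi z := by
  have hc : ContMDiff 𝓘(ℝ, ℂ) 𝓘(ℝ, ℂ) ∞ (fun w : ℂ => (starRingEnd ℂ) w) :=
    contMDiff_iff_contDiff.2 Complex.conjCLE.contDiff
  have hq : ContMDiffAt (𝓡 4) 𝓘(ℝ, ℂ × ℂ × ℝ) ∞ (fun z : S4 => ((starRingEnd ℂ) (c2 z), c1 z, ht z)) z :=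
    (hc.contMDiffAt.comp z (RSG.c2_smooth z)).prodMk_space ((RSG.c1_smooth z).prodMk_space
      (RSG.ht_smooth z))
  have e1 : ContMDiffAt (𝓡 4) 𝓘(ℝ, ℂ) ∞ (fun z : S4 => r1 ((starRingEnd ℂ) (c2 z)) (-bc (c2 z)) (c1 z) (ht z)) z := by
    have h := (r1_smooth (Or.inr rfl)).contMDiff.contMDiffAt.comp z hq
    refine h.congr_of_eventuallyEq (Eventually.of_forall fun y => ?_)
    show _ = r1 ((starRingEnd ℂ) (c2 y)) (-1 * bc ((starRingEnd ℂ) (c2 y))) _ _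
    rw [neg_one_mul, bc_conj]
  have e2 : ContMDiffAt (𝓡 4) 𝓘(ℝ, ℝ) ∞ (fun z : S4 => r2 ((starRingEnd ℂ) (c2 z)) (-bc (c2 z)) (c1 z) (ht z)) z := by
    have h := (r2_smooth (Or.inr rfl)).contMDiff.contMDiffAt.comp z hq
    refine h.congr_of_eventuallyEq (Eventually.of_forall fun y => ?_)
    show _ = r2 ((starRingEnd ℂ) (c2 y)) (-1 * bc ((starRingEnd ℂ) (c2 y))) _ _
    rw [neg_one_mul, bc_conj]
  refine RSG.pS4_smooth (RSG.c2_smooth z) (hc.contMDiffAt.comp z e1) e2.neg ?_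
  exact lt_of_lt_of_eq one_pos (Pi_sum z).symm

theorem Ps_ld (z : S4) : IsLocalDiffeomorphAt (𝓡 4) (𝓡 4) ∞ Ps z :=
  RSG.ld_two (g := Pi) (Eventually.of_forall Ps_smooth) (Eventually.of_forall Pi_smooth)
    (Eventually.of_forall Pi_Ps) (Eventually.of_forall Ps_Pi)

/-- For `|c1 z| ≥ 1/4`. -/
theorem Ps_far {z : S4} (h : 1 / 4 ≤ ‖c1 z‖) : c1 (Ps z) = c1 z ^ 2 * (starRingEnd ℂ) (c2 z) / ((‖c1 z‖ ^ 2 : ℝ) : ℂ) ∧
    c2 (Ps z) = c1 z ∧ ht (Ps z) = -ht z := by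
  obtain ⟨h1, h2, h3⟩ := Ps_c z
  have h0 : c1 z ≠ 0 := norm_pos_iff.1 (by linarith)
  rw [h1, h3, bc_zero h, r1_zero, r2_zero h0]
  exact ⟨rfl, h2, rfl⟩

theorem Ps_far_norm {z : S4} (h : 1 / 4 ≤ ‖c1 z‖) : ‖c1 (Ps z)‖ = ‖c2 z‖ := by
  obtain ⟨h1, _, _⟩ := Ps_far h
  have h0 : 0 < ‖c1 z‖ := by linarith
  rw [h1, norm_div, norm_mul, norm_pow, RCLike.norm_conj, Complex.norm_real, Real.norm_of_nonneg (by positivity)]
  field_simp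

theorem Ps_far_fh {z : S4} (h : 1 / 4 ≤ ‖c1 z‖) : fh (Ps z) = -fh z := by
  obtain ⟨_, h2, h3⟩ := Ps_far h
  unfold fh
  rw [Ps_far_norm h, h2, h3]
  apply Complex.ext
  · simp
  · simp

theorem c_le (z : S4) : ‖c1 z‖ ≤ 1 ∧ ‖c2 z‖ ≤ 1 := by
  have h := RSG.S4_sq z
  constructor
  · nlinarith [norm_nonneg (c1 z), sq_nonneg (ht z), sq_nonneg (‖c2 z‖)]
  · nlinarith [norm_nonneg (c2 z), sq_nonneg (ht z), sq_nonneg (‖c1 z‖)]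

theorem Ps_fh {z : S4} (h : fh z ≠ 0) : fh (Ps z) ≠ 0 := by
  by_cases h1 : 1 / 4 ≤ ‖c1 z‖
  · rw [Ps_far_fh h1]
    exact neg_ne_zero.2 h
  · rw [RSG.fh_ne_iff, (Ps_c z).2.1]
    have h2 := (c_le (Ps z)).1
    have h3 := norm_nonneg (c1 z)
    push Not at h1
    nlinarith [norm_nonneg (c1 (Ps z))]

theorem Pi_fh {z : S4} (h : fh z ≠ 0) : fh (Pi z) ≠ 0 := by
  by_cases h1 : 1 / 4 ≤ ‖c1 (Pi z)‖
  · have h2 := Ps_far_fh h1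
    rw [Ps_Pi] at h2
    intro h3
    rw [h3, neg_zero] at h2
    exact h h2
  · rw [RSG.fh_ne_iff]
    have h2 := (c_le (Pi z)).2
    have h3 := norm_nonneg (c1 (Pi z))
    push Not at h1
    nlinarith [norm_nonneg (c2 (Pi z))]

end Pool.Agent.LKJ
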