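import Pool.Agent.LKJ.Psi
import Pool.Agent.RSG.GerM
import Pool.Agent.RSG.GcM
import Pool.Agent.RSG.NewS
import Pool.Agent.RBH.ClM

/-!
# LKJ/Step: from `j` to `j + 1`

`D` is a `TwinF` for the family `κ` shifted by `1/2` at `i₀` (with `n`, `j`).  New maps: `Q' i₀ = D.Q i₀ ∘ Ps`, and on the tube of `κ i₀`
`A' (κ i₀ (l, v, t)) = D.Q i₀ (Ps (Gc n (j + 1) (l, v, t)))`; this is `D.A (κ i₀ (l, v, t))` for `1/2 ≤ |v|`.
-/

open scoped Manifold ContDiff Topology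
open Set Filter
open Complex (I)
open Pool.Agent.RSG (E4 S4 ex c1 c2 ht fh pS4 Gc)
open Pool.Agent.RBM (ThickT OnT)
open Pool.Agent.RBH (Tube)
open Pool.Agent.LKF (TwinF LinkT OnF)

namespace Pool.Agent.LKJ

variable {E : Type*} [NormedAddCommGroup E] [NormedSpace ℝ E] {H : Type*} [TopologicalSpace H]
  {J : ModelWithCorners ℝ E H} {P : Type*} [TopologicalSpace P] [ChartedSpace H P]
  {ι : Type*} {κ : ι → ℝ × ℂ × ℝ → P} {n j : ι → ℤ} {X : Type*} [TopologicalSpace X] [ChartedSpace E4 X]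

/-- the phases of `Ps z`, `z` with the phases of `j + 1` -/
theorem Step_phase {n j : ℤ} {z : S4} {l m t : ℝ} (hz : 1 / 4 ≤ ‖c1 z‖)
    (e1 : c1 z = ‖c1 z‖ * ex (m + (1 - ((j + 1 : ℤ) : ℝ)) * t)) (e2 : c2 z = ‖c2 z‖ * ex (m - ((j + 1 : ℤ) : ℝ) * t))
    (e3 : fh z = ‖fh z‖ * ex (l - n * t)) :
    c1 (Ps z) = ‖c1 (Ps z)‖ * ex (m + (1 - (j : ℝ)) * t) ∧ c2 (Ps z) = ‖c2 (Ps z)‖ * ex (m - (j : ℝ) * t) ∧
    fh (Ps z) = ‖fh (Ps z)‖ * ex (l + 1 / 2 - n * t) := by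
  obtain ⟨g1, g2, _⟩ := Ps_far hz
  have h0 : 0 < ‖c1 z‖ := by linarith
  have hn0 : ((‖c1 z‖ : ℝ) : ℂ) ≠ 0 := by exact_mod_cast h0.ne'
  refine ⟨?_, ?_, ?_⟩
  · rw [Ps_far_norm hz, g1, RSG.MirM_conj_ex e2]
    have h3 : c1 z ^ 2 = ((‖c1 z‖ : ℝ) : ℂ) ^ 2 * (ex (m + (1 - ((j + 1 : ℤ) : ℝ)) * t) * ex (m + (1 - ((j + 1 : ℤ) : ℝ)) * t)) := by
      conv_lhs => rw [e1]
      ring
    rw [h3, ← RSG.ex_add]
    push_cast
    have h4 : ((‖c1 z‖ : ℝ) : ℂ) ^ 2 * ex (m + (1 - ((j : ℝ) + 1)) * t + (m + (1 - ((j : ℝ) + 1)) * t)) *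
        (((‖c2 z‖ : ℝ) : ℂ) * ex (-(m - ((j : ℝ) + 1) * t))) / ((‖c1 z‖ : ℝ) : ℂ) ^ 2 =
        ((‖c2 z‖ : ℝ) : ℂ) * (ex (m + (1 - ((j : ℝ) + 1)) * t + (m + (1 - ((j : ℝ) + 1)) * t)) * ex (-(m - ((j : ℝ) + 1) * t))) := by
      field_simp
    rw [h4, ← RSG.ex_add]
    congr 2
    ring
  · rw [g2]
    conv_lhs => rw [e1]
    congr 2
    push_cast
    ring
  · rw [Ps_far_fh hz, norm_neg]
    conv_lhs => rw [e3]
    rw [show l + 1 / 2 - n * t = (l - n * t) + 1 / 2 by ring, RSG.ex_add _ (1 / 2), RSG.ex_half]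
    ring

/-- spherical coordinates of `Gc` -/
theorem Step_Gc (n j : ℤ) {l t : ℝ} {v : ℂ} (h0 : v ≠ 0) (h1 : ‖v‖ < 1) : ∃ m : ℝ, v = ((‖v‖ : ℝ) : ℂ) * ex m ∧
    fh (Gc n j (l, v, t)) ≠ 0 ∧ c1 (Gc n j (l, v, t)) ≠ 0 ∧ c2 (Gc n j (l, v, t)) ≠ 0 ∧
    2 * ‖c1 (Gc n j (l, v, t))‖ * ‖c2 (Gc n j (l, v, t))‖ = ‖v‖ ∧
    c1 (Gc n j (l, v, t)) = ‖c1 (Gc n j (l, v, t))‖ * ex (m + (1 - (j : ℝ)) * t) ∧
    c2 (Gc n j (l, v, t)) = ‖c2 (Gc n j (l, v, t))‖ * ex (m - (j : ℝ) * t) ∧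
    fh (Gc n j (l, v, t)) = ‖fh (Gc n j (l, v, t))‖ * ex (l - n * t) := by
  obtain ⟨hf, g1, g2, hr, e1, e2, e3⟩ := RSG.Gc_spec n j (l := l) (t := t) h0 h1
  have hvp : 0 < ‖v‖ := norm_pos_iff.2 h0
  obtain ⟨m, hm⟩ := RSG.ex_surj (u := v / ‖v‖) (by
    rw [norm_div, Complex.norm_real, norm_norm, div_self hvp.ne'])
  refine ⟨m, ?_, hf, g1, g2, hr, ?_, ?_, e3⟩
  · rw [← hm]
    have : ((‖v‖ : ℝ) : ℂ) ≠ 0 := by exact_mod_cast hvp.ne'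
    field_simp
  · rw [hm, ← RSG.ex_add] at e1
    exact e1
  · rw [hm, ← RSG.ex_add] at e2
    rw [sub_eq_add_neg, ← neg_mul]
    exact e2

/-- `Gc` is injective modulo integers -/
theorem Step_inj (n j : ℤ) {l t l' t' : ℝ} {v v' : ℂ} (h0 : v ≠ 0) (h1 : ‖v‖ < 1) (h0' : v' ≠ 0) (h1' : ‖v'‖ < 1)
    (h : Gc n j (l, v, t) = Gc n j (l', v', t')) : v' = v ∧ (∃ a : ℤ, t' = t + a) ∧ ∃ c : ℤ, l' = l + c := by
  obtain ⟨m, e0, hf, g1, g2, hr, e1, e2, e3⟩ := Step_Gc n j (l := l) (t := t) h0 h1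
  obtain ⟨m', e0', hf', g1', g2', hr', e1', e2', e3'⟩ := Step_Gc n j (l := l') (t := t') h0' h1'
  rw [← h] at hf' g1' g2' hr' e1' e2' e3'
  obtain ⟨k1, k2, k3⟩ := RSG.GerM_phases n j hf g1 g2 (l := l) (m := m) (t := t) (l' := l') (m' := m') (t' := t')
    (by rw [show ((1 : ℤ) : ℝ) * m + ((1 - j : ℤ) : ℝ) * t = m + (1 - (j : ℝ)) * t by push_cast; ring]; exact e1)
    (by rw [show ((1 : ℤ) : ℝ) * m + ((-j : ℤ) : ℝ) * t = m - (j : ℝ) * t by push_cast; ring]; exact e2) e3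
    (by rw [show ((1 : ℤ) : ℝ) * m' + ((1 - j : ℤ) : ℝ) * t' = m' + (1 - (j : ℝ)) * t' by push_cast; ring]; exact e1')
    (by rw [show ((1 : ℤ) : ℝ) * m' + ((-j : ℤ) : ℝ) * t' = m' - (j : ℝ) * t' by push_cast; ring]; exact e2') e3'
  refine ⟨?_, k2, k3⟩
  rw [e0, e0', ← hr, ← hr', k1]

open Classical in
/-- the new map `A` -/
noncomputable def nA (k : ℝ × ℂ × ℝ → P) (n j : ℤ) (A : P → X) (Q : S4 → X) (p : P) : X :=
  if h : ∃ q : ℝ × ℂ × ℝ, q.2.1 ≠ 0 ∧ ‖q.2.1‖ < 1 ∧ p = k q then Q (Ps (Gc n j h.choose)) else A p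

omit [TopologicalSpace X] [ChartedSpace E4 X] in
theorem nA_in {k : ℝ × ℂ × ℝ → P} (hk : ThickT J k) (n j : ℤ) (A : P → X) (Q : S4 → X) {l t : ℝ} {v : ℂ} (h0 : v ≠ 0)
    (h1 : ‖v‖ < 1) : nA k n j A Q (k (l, v, t)) = Q (Ps (Gc n j (l, v, t))) := by
  have h : ∃ q : ℝ × ℂ × ℝ, q.2.1 ≠ 0 ∧ ‖q.2.1‖ < 1 ∧ k (l, v, t) = k q := ⟨(l, v, t), h0, h1, rfl⟩
  unfold nA
  rw [dif_pos h]
  obtain ⟨g0, g1, g2⟩ := h.choose_spec
  obtain ⟨k1, ⟨a, k2⟩, ⟨c, k3⟩⟩ := hk.inj l v t h.choose.1 h.choose.2.1 h.choose.2.2 h1 g1 g2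
  have e : h.choose = (l + a, v, t + c) := Prod.ext k2 (Prod.ext k1.symm k3)
  rw [e, RSG.Gc_per]

omit [TopologicalSpace P] [TopologicalSpace X] [ChartedSpace E4 X] in
theorem nA_out {k : ℝ × ℂ × ℝ → P} (n j : ℤ) (A : P → X) (Q : S4 → X) {p : P} (hp : p ∉ Tube k) :
    nA k n j A Q p = A p := by
  unfold nA
  rw [dif_neg]
  rintro ⟨⟨l, v, t⟩, _, g1, g2⟩
  exact hp ⟨l, v, t, g1, g2⟩

open Classical in
/-- the family, shifted by `1/2` at `i₀` -/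
noncomputable def sh (κ : ι → ℝ × ℂ × ℝ → P) (i₀ : ι) : ι → ℝ × ℂ × ℝ → P :=
  Function.update κ i₀ fun q => κ i₀ (q.1 + 1 / 2, q.2)

omit [TopologicalSpace P] in
open Classical in
theorem sh_self (κ : ι → ℝ × ℂ × ℝ → P) (i₀ : ι) (l : ℝ) (v : ℂ) (t : ℝ) : sh κ i₀ i₀ (l, v, t) = κ i₀ (l + 1 / 2, v, t) := by
  unfold sh
  rw [Function.update_self]

omit [TopologicalSpace P] in
open Classical in
theorem sh_ne (κ : ι → ℝ × ℂ × ℝ → P) {i₀ i : ι} (h : i ≠ i₀) : sh κ i₀ i = κ i := by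
  unfold sh
  rw [Function.update_of_ne h]

omit [TopologicalSpace P] in
theorem sh_on (κ : ι → ℝ × ℂ × ℝ → P) (i₀ : ι) (p : P) : OnF (sh κ i₀) p ↔ OnF κ p := by
  constructor
  · rintro ⟨i, l, t, h⟩
    by_cases hi : i = i₀
    · subst hi
      rw [sh_self] at h
      exact ⟨i, l + 1 / 2, t, h⟩
    · rw [sh_ne κ hi] at h
      exact ⟨i, l, t, h⟩
  · rintro ⟨i, l, t, h⟩
    by_cases hi : i = i₀
    · subst hi
      refine ⟨i, l - 1 / 2, t, ?_⟩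
      rw [sh_self, sub_add_cancel]
      exact h
    · refine ⟨i, l, t, ?_⟩
      rw [sh_ne κ hi]
      exact h

open Classical in
theorem step [T2Space P] (h : LinkT J κ) (i₀ : ι) (D : TwinF J (sh κ i₀) n j X) :
    Nonempty (TwinF J κ n (Function.update j i₀ (j i₀ + 1)) X) := by
  have hk := h.thick i₀
  obtain ⟨A', hA'⟩ : ∃ A' : P → X, A' = nA (κ i₀) (n i₀) (j i₀ + 1) D.A (D.Q i₀) := ⟨_, rfl⟩
  obtain ⟨Q', hQ'⟩ : ∃ Q' : ι → S4 → X, Q' = Function.update D.Q i₀ fun z => D.Q i₀ (Ps z) := ⟨_, rfl⟩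
  have Q0 : ∀ z, Q' i₀ z = D.Q i₀ (Ps z) := fun z => by rw [hQ', Function.update_self]
  have Q1 : ∀ i, i ≠ i₀ → Q' i = D.Q i := fun i hi => by rw [hQ', Function.update_of_ne hi]
  have A0 : ∀ l v t, v ≠ 0 → ‖v‖ < 1 → A' (κ i₀ (l, v, t)) = D.Q i₀ (Ps (Gc (n i₀) (j i₀ + 1) (l, v, t))) := by
    intro l v t h0 h1
    rw [hA', nA_in hk _ _ _ _ h0 h1]
  have A1 : ∀ p, p ∉ Tube (κ i₀) → A' p = D.A p := fun p hp => by rw [hA', nA_out _ _ _ _ hp]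
  -- the points of the tube
  have not0 : ∀ i l v t, v ≠ 0 → ‖v‖ < 1 → ¬ OnF κ (κ i (l, v, t)) := by
    rintro i l v t hv hv1 ⟨i', l', t', hl'⟩
    have hii := h.disj i i' l v t l' 0 t' hv1 (by simp) hl'
    subst hii
    exact hv ((h.thick i).inj l v t l' 0 t' hv1 (by simp) hl').1
  have rpos : ∀ z, c1 z ≠ 0 → c2 z ≠ 0 → ∀ m, ((2 * ‖c1 z‖ * ‖c2 z‖ : ℝ) : ℂ) * ex m ≠ 0 := by
    intro z h1 h2 m
    have g1 := norm_pos_iff.2 h1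
    have g2 := norm_pos_iff.2 h2
    have g3 : 0 < 2 * ‖c1 z‖ * ‖c2 z‖ := by positivity
    exact mul_ne_zero (by exact_mod_cast g3.ne') (RSG.ex_ne m)
  have perl : ∀ i l v t, κ i (l + 1 / 2 + 1 / 2, v, t) = κ i (l, v, t) := by
    intro i l v t
    rw [show l + 1 / 2 + 1 / 2 = l + 1 by ring, (h.thick i).perl]
  -- (C)
  have factC : ∀ (z : S4) (l m t : ℝ), fh z ≠ 0 → c2 z ≠ 0 → 1 / 4 ≤ ‖c1 z‖ →
      c1 z = ‖c1 z‖ * ex (m + (1 - ((j i₀ + 1 : ℤ) : ℝ)) * t) → c2 z = ‖c2 z‖ * ex (m - ((j i₀ + 1 : ℤ) : ℝ) * t) →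
      fh z = ‖fh z‖ * ex (l - n i₀ * t) →
      D.Q i₀ (Ps z) = D.A (κ i₀ (l, (2 * ‖c1 z‖ * ‖c2 z‖ : ℝ) * ex m, t)) := by
    intro z l m t hf h2 hc e1 e2 e3
    obtain ⟨g1, g2, g3⟩ := Step_phase hc e1 e2 e3
    have n1 : ‖c1 (Ps z)‖ = ‖c2 z‖ := Ps_far_norm hc
    have n2 : ‖c2 (Ps z)‖ = ‖c1 z‖ := by rw [(Ps_c z).2.1]
    have key := D.glue i₀ (Ps z) (l + 1 / 2) m t (Ps_fh hf)
      (by rw [← norm_pos_iff, n1]; exact norm_pos_iff.2 h2)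
      (by rw [← norm_pos_iff, n2]; linarith) g1 g2 g3
    rw [key, sh_self, perl, n1, n2, show 2 * ‖c2 z‖ * ‖c1 z‖ = 2 * ‖c1 z‖ * ‖c2 z‖ by ring]
  -- (D)
  have factD : ∀ l v t, 1 / 2 ≤ ‖v‖ → ‖v‖ < 1 → A' (κ i₀ (l, v, t)) = D.A (κ i₀ (l, v, t)) := by
    intro l v t hv h1
    have h0 : v ≠ 0 := norm_pos_iff.1 (by linarith)
    obtain ⟨m, e0, hf, g1, g2, hr, e1, e2, e3⟩ := Step_Gc (n i₀) (j i₀ + 1) (l := l) (t := t) h0 h1
    rw [A0 l v t h0 h1]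
    have hc : 1 / 4 ≤ ‖c1 (Gc (n i₀) (j i₀ + 1) (l, v, t))‖ := by
      have g3 := (c_le (Gc (n i₀) (j i₀ + 1) (l, v, t))).2
      nlinarith [norm_nonneg (c1 (Gc (n i₀) (j i₀ + 1) (l, v, t)))]
    rw [factC _ l m t hf g2 hc e1 e2 e3, hr, ← e0]
  -- (E)
  have factE : ∀ w p, fh w ≠ 0 → ¬ OnF κ p → D.Q i₀ w = D.A p → p ∈ Tube (κ i₀) := by
    intro w p hf hp he
    by_cases hw : c1 w = 0 ∨ c2 w = 0
    · exact absurd he (D.disj i₀ w p hf hw (by rw [sh_on]; exact hp))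
    · push Not at hw
      obtain ⟨l, m, t, e1, e2, e3⟩ := RSG.exists_phase (n i₀) (j i₀) w
      have key := D.glue i₀ w l m t hf hw.1 hw.2
        (by rw [show m + (1 - (j i₀ : ℝ)) * t = ((1 : ℤ) : ℝ) * m + ((1 - j i₀ : ℤ) : ℝ) * t by push_cast; ring]; exact e1)
        (by rw [show m - (j i₀ : ℝ) * t = ((1 : ℤ) : ℝ) * m + ((-j i₀ : ℤ) : ℝ) * t by push_cast; ring]; exact e2) e3
      rw [key, sh_self] at he
      have h1 := RSG.glue_norm hf m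
      have h2 := D.A_inj _ _ (by rw [sh_on]; exact not0 i₀ _ _ _ (rpos w hw.1 hw.2 m) h1) (by rw [sh_on]; exact hp) he
      exact ⟨_, _, _, h1, h2.symm⟩
  refine ⟨{ A := A', Q := Q', A_loc := ?_, A_inj := ?_, Q_loc := ?_,
            Q_inj := ?_, glue := ?_, disj := ?_, cover := ?_ }⟩
  · intro p hp
    by_cases hz : p ∈ {p : P | ∃ (l : ℝ) (v : ℂ) (t : ℝ), ‖v‖ ≤ 1 / 2 ∧ p = κ i₀ (l, v, t)}
    · obtain ⟨l, v, t, hv, rfl⟩ := hz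
      have h1 : ‖v‖ < 1 := by linarith
      have h0 : v ≠ 0 := by
        rintro rfl
        exact hp ⟨i₀, l, t, rfl⟩
      have hG := RSG.Gc_ld (n i₀) (j i₀ + 1) (l := l) (t := t) h0 h1
      obtain ⟨m, e0, hf, g1, g2, hr, e1, e2, e3⟩ := Step_Gc (n i₀) (j i₀ + 1) (l := l) (t := t) h0 h1
      have hcomp : IsLocalDiffeomorphAt 𝓘(ℝ, ℝ × ℂ × ℝ) (𝓡 4) ∞ (A' ∘ κ i₀) (l, v, t) := by
        have hP : IsLocalDiffeomorphAt 𝓘(ℝ, ℝ × ℂ × ℝ) (𝓡 4) ∞ (Ps ∘ Gc (n i₀) (j i₀ + 1)) (l, v, t) :=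
          IsLocalDiffeomorphAt.comp (hf := hG) (hg := Ps_ld _)
        have hq : IsLocalDiffeomorphAt 𝓘(ℝ, ℝ × ℂ × ℝ) (𝓡 4) ∞ (D.Q i₀ ∘ (Ps ∘ Gc (n i₀) (j i₀ + 1))) (l, v, t) :=
          IsLocalDiffeomorphAt.comp (hf := hP) (hg := D.Q_loc i₀ _ (Ps_fh hf))
        refine Pool.Agent.CSG.ld_congr hq ?_
        have B1 : ∀ᶠ a : ℝ × ℂ × ℝ in 𝓝 (l, v, t), a.2.1 ≠ 0 :=
          (continuous_snd.fst).continuousAt.eventually_ne h0
        have B2 : ∀ᶠ a : ℝ × ℂ × ℝ in 𝓝 (l, v, t), ‖a.2.1‖ < 1 :=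
          (continuous_snd.fst.norm).continuousAt.eventually_lt continuousAt_const h1
        filter_upwards [B1, B2] with a ha1 ha2
        exact A0 a.1 a.2.1 a.2.2 ha1 ha2
      exact Pool.Agent.CSG.ld_of_comp_left hcomp (hk.loc l v t h1)
    · refine Pool.Agent.CSG.ld_congr (D.A_loc p (by rw [sh_on]; exact hp)) ?_
      have hcl := (RBH.tube_closed hk (r₀ := 1 / 2) (by norm_num)).isOpen_compl.mem_nhds hz
      filter_upwards [hcl] with p' hp'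
      by_cases ht : p' ∈ Tube (κ i₀)
      · obtain ⟨l, v, t, h1, rfl⟩ := ht
        refine factD l v t ?_ h1
        by_contra hcon
        exact hp' ⟨l, v, t, (not_le.1 hcon).le, rfl⟩
      · exact A1 p' ht
  · -- injectivity
    have hcase : ∀ p, ¬ OnF κ p → p ∈ Tube (κ i₀) → ∃ l v t, v ≠ 0 ∧ ‖v‖ < 1 ∧ p = κ i₀ (l, v, t) ∧
        A' p = D.Q i₀ (Ps (Gc (n i₀) (j i₀ + 1) (l, v, t))) := by
      rintro p hp ⟨l, v, t, h1, rfl⟩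
      have h0 : v ≠ 0 := by
        rintro rfl
        exact hp ⟨i₀, l, t, rfl⟩
      exact ⟨l, v, t, h0, h1, rfl, A0 l v t h0 h1⟩
    have hmix : ∀ p p', ¬ OnF κ p → ¬ OnF κ p' → p ∈ Tube (κ i₀) → p' ∉ Tube (κ i₀) → A' p ≠ A' p' := by
      intro p p' hp hp' ht ht' he
      obtain ⟨l, v, t, h0, h1, _, e⟩ := hcase p hp ht
      obtain ⟨m, e0, hf, _⟩ := Step_Gc (n i₀) (j i₀ + 1) (l := l) (t := t) h0 h1
      rw [e, A1 p' ht'] at he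
      exact ht' (factE _ p' (Ps_fh hf) hp' he)
    intro p p' hp hp' he
    by_cases ht : p ∈ Tube (κ i₀)
    · by_cases ht' : p' ∈ Tube (κ i₀)
      · obtain ⟨l, v, t, h0, h1, rfl, e⟩ := hcase p hp ht
        obtain ⟨l', v', t', h0', h1', rfl, e'⟩ := hcase p' hp' ht'
        obtain ⟨m, _, hf, _⟩ := Step_Gc (n i₀) (j i₀ + 1) (l := l) (t := t) h0 h1
        obtain ⟨m', _, hf', _⟩ := Step_Gc (n i₀) (j i₀ + 1) (l := l') (t := t') h0' h1'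
        rw [e, e'] at he
        have h3 := (D.Q_inj i₀ _ i₀ _ (Ps_fh hf) (Ps_fh hf') he).2
        have h4 : Gc (n i₀) (j i₀ + 1) (l, v, t) = Gc (n i₀) (j i₀ + 1) (l', v', t') := by
          rw [← Pi_Ps (Gc (n i₀) (j i₀ + 1) (l, v, t)), h3, Pi_Ps]
        obtain ⟨hv, ⟨a, ha⟩, ⟨c, hc⟩⟩ := Step_inj (n i₀) (j i₀ + 1) h0 h1 h0' h1' h4
        rw [hv, ha, hc, RSG.GerM_per (f := fun x => κ i₀ (x, v, t + a)) (fun x => hk.perl _ _ _) l c,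
          RSG.GerM_per (f := fun x => κ i₀ (l, v, x)) (fun x => hk.pert _ _ _) t a]
      · exact absurd he (hmix p p' hp hp' ht ht')
    · by_cases ht' : p' ∈ Tube (κ i₀)
      · exact absurd he.symm (hmix p' p hp' hp ht' ht)
      · rw [A1 p ht, A1 p' ht'] at he
        exact D.A_inj p p' (by rw [sh_on]; exact hp) (by rw [sh_on]; exact hp') he
  · intro i z hf
    by_cases hi : i = i₀
    · subst hi
      have h1 : Q' i = D.Q i ∘ Ps := funext Q0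
      rw [h1]
      exact IsLocalDiffeomorphAt.comp (hf := Ps_ld z) (hg := D.Q_loc i _ (Ps_fh hf))
    · rw [Q1 i hi]
      exact D.Q_loc i z hf
  · intro i z i' z' hf hf' he
    by_cases hi : i = i₀
    · subst hi
      by_cases hi' : i' = i
      · subst hi'
        rw [Q0, Q0] at he
        have h1 := (D.Q_inj _ _ _ _ (Ps_fh hf) (Ps_fh hf') he).2
        refine ⟨rfl, ?_⟩
        rw [← Pi_Ps z, h1, Pi_Ps]
      · rw [Q0, Q1 i' hi'] at he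
        exact absurd (D.Q_inj _ _ _ _ (Ps_fh hf) hf' he).1.symm hi'
    · by_cases hi' : i' = i₀
      · subst hi'
        rw [Q0, Q1 i hi] at he
        exact absurd (D.Q_inj _ _ _ _ hf (Ps_fh hf') he).1 hi
      · rw [Q1 i hi, Q1 i' hi'] at he
        exact D.Q_inj _ _ _ _ hf hf' he
  · intro i z l m t hf h1 h2 e1 e2 e3
    by_cases hi : i = i₀
    · subst hi
      rw [Function.update_self] at e1 e2
      have h3 := RSG.Gc_eq (n i) (j i + 1) hf h1 h2 (l := l) (m := m) (t := t)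
        (by rw [show ((1 : ℤ) : ℝ) * m + ((1 - (j i + 1) : ℤ) : ℝ) * t = m + (1 - ((j i + 1 : ℤ) : ℝ)) * t by push_cast; ring]
            exact e1)
        (by rw [show ((1 : ℤ) : ℝ) * m + ((-(j i + 1) : ℤ) : ℝ) * t = m - ((j i + 1 : ℤ) : ℝ) * t by push_cast; ring]
            exact e2) e3
      rw [A0 _ _ _ (rpos z h1 h2 m) (RSG.glue_norm hf m), ← h3, Q0]
    · rw [Function.update_of_ne hi] at e1 e2
      have h3 := D.glue i z l m t hf h1 h2 e1 e2 e3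
      rw [sh_ne κ hi] at h3
      rw [Q1 i hi, h3, A1]
      rintro ⟨l', v', t', hv', he⟩
      exact hi (h.disj _ _ _ _ _ _ _ _ (RSG.glue_norm hf m) hv' he)
  · intro i z p hf hz hp he
    by_cases hi : i = i₀
    · subst hi
      rw [Q0] at he
      by_cases ht : p ∈ Tube (κ i)
      · obtain ⟨l, v, t, h1, rfl⟩ := ht
        have h0 : v ≠ 0 := by
          rintro rfl
          exact hp ⟨i, l, t, rfl⟩
        obtain ⟨m, _, hf', g1, g2, _⟩ := Step_Gc (n i) (j i + 1) (l := l) (t := t) h0 h1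
        rw [A0 l v t h0 h1] at he
        have h3 := (D.Q_inj _ _ _ _ (Ps_fh hf) (Ps_fh hf') he).2
        have h4 : z = Gc (n i) (j i + 1) (l, v, t) := by
          rw [← Pi_Ps z, h3, Pi_Ps]
        rw [h4] at hz
        rcases hz with hz | hz
        · exact g1 hz
        · exact g2 hz
      · rw [A1 p ht] at he
        exact ht (factE _ p (Ps_fh hf) hp he)
    · rw [Q1 i hi] at he
      by_cases ht : p ∈ Tube (κ i₀)
      · obtain ⟨l, v, t, h1, rfl⟩ := ht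
        have h0 : v ≠ 0 := by
          rintro rfl
          exact hp ⟨i₀, l, t, rfl⟩
        obtain ⟨m, _, hf', g1, g2, _⟩ := Step_Gc (n i₀) (j i₀ + 1) (l := l) (t := t) h0 h1
        rw [A0 l v t h0 h1] at he
        exact hi (D.Q_inj _ _ _ _ hf (Ps_fh hf') he).1
      · rw [A1 p ht] at he
        exact D.disj i z p hf hz (by rw [sh_on]; exact hp) he
  · intro q
    rcases D.cover q with ⟨p, hp, hq⟩ | ⟨i, z, hf, hq⟩
    · rw [sh_on] at hp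
      by_cases ht : p ∈ Tube (κ i₀)
      · obtain ⟨l, v, t, h1, rfl⟩ := ht
        have h0 : v ≠ 0 := by
          rintro rfl
          exact hp ⟨i₀, l, t, rfl⟩
        obtain ⟨m, e0, hf, g1, g2, hr, e1, e2, e3⟩ := Step_Gc (n i₀) (j i₀) (l := l - 1 / 2) (t := t) h0 h1
        have key := D.glue i₀ _ _ m t hf g1 g2 e1 e2 e3
        rw [hr, ← e0, sh_self, sub_add_cancel] at key
        refine Or.inr ⟨i₀, Pi (Gc (n i₀) (j i₀) (l - 1 / 2, v, t)), Pi_fh hf, ?_⟩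
        rw [Q0, Ps_Pi, key]
        exact hq
      · exact Or.inl ⟨p, hp, by rw [A1 p ht]; exact hq⟩
    · by_cases hi : i = i₀
      · subst hi
        exact Or.inr ⟨i, Pi z, Pi_fh hf, by rw [Q0, Ps_Pi]; exact hq⟩
      · exact Or.inr ⟨i, z, hf, by rw [Q1 i hi]; exact hq⟩

end Pool.Agent.LKJ
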